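import Pool.Agent.H365PP.Final

set_option autoImplicit false

namespace Pool.Agent.Results.MP_657f9d_co.Dichotomy

open Filter

/-- `P` is in general position: no line contains three points of `P`. -/
def GeneralPosition (P : Finset (ℝ × ℝ)) : Prop :=
  ∀ a ∈ P, ∀ b ∈ P, ∀ c ∈ P, a ≠ b → b ≠ c → a ≠ c → ¬ Collinear ℝ ({a, b, c} : Set (ℝ × ℝ))

/-- The closed segments `ab` and `cd` cross: their intersection is a single point, which lies in the
relative interior of both. -/
def Crosses (a b c d : ℝ × ℝ) : Prop :=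
  ∃ x : ℝ × ℝ, segment ℝ a b ∩ segment ℝ c d = {x} ∧ x ∈ openSegment ℝ a b ∧ x ∈ openSegment ℝ c d

/-- `P` has a crossing family of size at least `s`: a set of `k ≥ s` segments, each with both (distinct)
endpoints in `P`, any two of which cross. -/
def HasCrossingFamily (P : Finset (ℝ × ℝ)) (s : ℝ) : Prop :=
  ∃ (k : ℕ) (a b : Fin k → ℝ × ℝ), s ≤ k ∧ (∀ i, a i ∈ P ∧ b i ∈ P ∧ a i ≠ b i) ∧
    ∀ i j, i ≠ j → Crosses (a i) (b i) (a j) (b j)

/-- `P` has a non-crossing family of size at least `m`: four pairwise disjoint nonempty subsets of `P`,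
each with at least `m` points, such that every point of the fourth lies in the interior of every
triangle spanned by one point of each of the first three. -/
def HasNonCrossingFamily (P : Finset (ℝ × ℝ)) (m : ℕ) : Prop :=
  ∃ Q : Fin 4 → Finset (ℝ × ℝ), (∀ i, Q i ⊆ P ∧ (Q i).Nonempty ∧ m ≤ (Q i).card) ∧
    (∀ i j, i ≠ j → Disjoint (Q i) (Q j)) ∧
    ∀ p₁ ∈ Q 0, ∀ p₂ ∈ Q 1, ∀ p₃ ∈ Q 2, ∀ p₄ ∈ Q 3,
      p₄ ∈ interior (convexHull ℝ ({p₁, p₂, p₃} : Set (ℝ × ℝ)))

lemma collinear_of_two {a b x y c : ℝ × ℝ} (hxy : x ≠ y) (hx : x ∈ segment ℝ a b)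
    (hy : y ∈ segment ℝ a b) (hc : c ∈ line[ℝ, x, y]) : Collinear ℝ ({a, b, c} : Set (ℝ × ℝ)) := by
  have hseg : ∀ z ∈ segment ℝ a b, z ∈ line[ℝ, a, b] := by
    intro z hz
    rw [segment_eq_image_lineMap] at hz
    obtain ⟨s, -, rfl⟩ := hz
    exact AffineMap.lineMap_mem_affineSpan_pair _ _ _
  have hx' : x ∈ line[ℝ, a, b] := hseg x hx
  have hy' : y ∈ line[ℝ, a, b] := hseg y hy
  have hle : line[ℝ, x, y] ≤ line[ℝ, a, b] := by
    rw [affineSpan_le]
    intro z hz
    rcases hz with rfl | hz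
    · exact hx'
    · rw [Set.mem_singleton_iff] at hz
      rw [hz]; exact hy'
  have hcc : c ∈ line[ℝ, a, b] := hle hc
  have h := (collinear_insert_of_mem_affineSpan_pair hcc : Collinear ℝ ({c, a, b} : Set (ℝ × ℝ)))
  have he : ({c, a, b} : Set (ℝ × ℝ)) = {a, b, c} := by
    ext z; simp only [Set.mem_insert_iff, Set.mem_singleton_iff]; tauto
  rwa [he] at h

lemma line_eq_of_two {a b x y : ℝ × ℝ} (hxy : x ≠ y) (hx : x ∈ segment ℝ a b)
    (hy : y ∈ segment ℝ a b) : a ∈ line[ℝ, x, y] ∧ b ∈ line[ℝ, x, y] := by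
  rw [segment_eq_image_lineMap] at hx hy
  obtain ⟨s, hs, hxs⟩ := hx
  obtain ⟨t, ht, hyt⟩ := hy
  have hst : s ≠ t := by
    rintro rfl
    exact hxy (hxs.symm.trans hyt)
  have hts : t - s ≠ 0 := sub_ne_zero.2 hst.symm
  constructor
  · have key : a = AffineMap.lineMap x y ((0 - s) / (t - s)) := by
      rw [← hxs, ← hyt]
      ext <;> simp [AffineMap.lineMap_apply] <;> field_simp <;> ring
    have hm := AffineMap.lineMap_mem_affineSpan_pair ((0 - s) / (t - s)) x y
    rwa [← key] at hm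
  · have key : b = AffineMap.lineMap x y ((1 - s) / (t - s)) := by
      rw [← hxs, ← hyt]
      ext <;> simp [AffineMap.lineMap_apply] <;> field_simp <;> ring
    have hm := AffineMap.lineMap_mem_affineSpan_pair ((1 - s) / (t - s)) x y
    rwa [← key] at hm

/-- Positive answer to Q1: there are a real `c > 0` and a function `f : ℕ → ℕ` (with positive values)
tending to infinity such that every set of `n ≥ 2` points in general position in the plane has a crossing
family of size at least `c n` or a non-crossing family of size at least `f n`. -/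
theorem result : ∃ c : ℝ, 0 < c ∧ ∃ f : ℕ → ℕ, Tendsto f atTop atTop ∧ (∀ n, 0 < f n) ∧
    ∀ n : ℕ, 2 ≤ n → ∀ P : Finset (ℝ × ℝ), P.card = n → GeneralPosition P →
      HasCrossingFamily P (c * n) ∨ HasNonCrossingFamily P (f n) := by
  classical
  obtain ⟨c, hc, h⟩ := Pool.Agent.H365PP.q1
  refine ⟨c, hc, fun n => n + 1, tendsto_add_atTop_nat 1, fun n => Nat.succ_pos n, ?_⟩
  intro n hn P hP hG
  left
  obtain ⟨k, a, b, hk, ha, hb, hne, hab⟩ := h n hn P hP hG
  refine ⟨k, a, b, hk, fun i => ⟨ha i, hb i, hne i i⟩, ?_⟩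
  intro i j hij
  obtain ⟨g1, g2, x, hx1, hx2⟩ := hab i j hij
  refine ⟨x, ?_, hx1, hx2⟩
  have hxa := openSegment_subset_segment ℝ _ _ hx1
  have hxb := openSegment_subset_segment ℝ _ _ hx2
  apply Set.Subset.antisymm
  · intro y hy
    by_contra hyx
    rw [Set.mem_singleton_iff] at hyx
    have hyx' : x ≠ y := fun e => hyx e.symm
    obtain ⟨l1, _⟩ := line_eq_of_two hyx' hxb hy.2
    exact hG (a i) (ha i) (b i) (hb i) (a j) (ha j) (hne i i) (hne j i).symm g1
      (collinear_of_two hyx' hxa hy.1 l1)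
  · intro y hy
    rw [Set.mem_singleton_iff] at hy
    rw [hy]
    exact ⟨hxa, hxb⟩

end Pool.Agent.Results.MP_657f9d_co.Dichotomy
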